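import Pool.Agent.L0h31.GT.Stm
import Pool.Agent.L0h99.SO.Tra

/-!
# Poincare's inequality for order polytopes with any finite index set (module OPK of helper31)
-/

set_option autoImplicit false

open MeasureTheory Set Filter Topology

namespace Pool.Agent.L0h78.GT

open Pool.Agent.L0h31.GT Pool.Agent.L0h99.SO

section

variable {ι : Type} {n : ℕ}

/-- relabelling of coordinates -/
def rl (e : ι ≃ Fin n) (y : Fin n → ℝ) : ι → ℝ := fun i => y (e i)

/-- the clauses of an order polytope -/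
def Cl (R : ι → ι → Prop) (e : ι ≃ Fin n) (a b : Sl n) : Prop :=
  ∃ i j : ι, R i j ∧ a = (e i, false) ∧ b = (e j, true)

theorem mem_rl (R : ι → ι → Prop) (e : ι ≃ Fin n) (y : Fin n → ℝ) :
    rl e y ∈ OB R (fun _ => 0) (fun _ => 1) ↔ y ∈ TPp (Cl R e) := by
  constructor
  · rintro ⟨h1, h2⟩
    refine ⟨fun i => ?_, ?_⟩
    · have := h1 (e.symm i)
      simpa [rl] using this
    · rintro a b ⟨i, j, hij, rfl, rfl⟩
      have := h2 i j hij
      simp only [rl] at this
      simp only [lv]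
      simp
      linarith
  · rintro ⟨h1, h2⟩
    refine ⟨fun i => h1 (e i), fun i j hij => ?_⟩
    have := h2 _ _ ⟨i, j, hij, rfl, rfl⟩
    simp only [lv] at this
    simp at this
    simp only [rl]
    linarith

theorem rl_eq [Fintype ι] (e : ι ≃ Fin n) :
    (rl e : (Fin n → ℝ) → ι → ℝ) = MeasurableEquiv.piCongrLeft (fun _ : ι => ℝ) e.symm := by
  funext y i
  have h : i = e.symm (e i) := (e.symm_apply_apply i).symm
  conv_rhs => rw [h]
  rw [MeasurableEquiv.coe_piCongrLeft, Equiv.piCongrLeft_apply_apply]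
  rfl

theorem int_rl [Fintype ι] (R : ι → ι → Prop) (e : ι ≃ Fin n) (G : (ι → ℝ) → ℝ) :
    ∫ x in OB R (fun _ => 0) (fun _ => 1), G x = ∫ y in TPp (Cl R e), G (rl e y) := by
  have hm := volume_measurePreserving_piCongrLeft (fun _ : ι => ℝ) e.symm
  have h := hm.setIntegral_preimage_emb (MeasurableEquiv.measurableEmbedding _) G
    (OB R (fun _ => 0) (fun _ => 1))
  rw [← h, ← rl_eq]
  have hs : rl e ⁻¹' OB R (fun _ => 0) (fun _ => 1) = TPp (Cl R e) := by
    ext y
    exact mem_rl R e y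
  rw [hs]

theorem vol_rl [Fintype ι] (R : ι → ι → Prop) (e : ι ≃ Fin n) :
    (volume (OB R (fun _ : ι => 0) (fun _ => 1))).toReal = (volume (TPp (Cl R e))).toReal := by
  have h := int_rl R e (fun _ => (1 : ℝ))
  rw [setIntegral_const, setIntegral_const] at h
  simpa [Measure.real] using h

theorem pd_rl [Fintype ι] [DecidableEq ι] (e : ι ≃ Fin n) {f : (ι → ℝ) → ℝ} (h : ContDiff ℝ 1 f)
    (a : ι) (y : Fin n → ℝ) :
    Pool.Agent.R972.OP.pd (fun y => f (rl e y)) (e a) y = pd f a (rl e y) := by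
  have hl : HasFDerivAt (rl e : (Fin n → ℝ) → ι → ℝ)
      (ContinuousLinearMap.pi fun i => ContinuousLinearMap.proj (R := ℝ) (φ := fun _ : Fin n => ℝ) (e i)) y :=
    (ContinuousLinearMap.pi fun i =>
      ContinuousLinearMap.proj (R := ℝ) (φ := fun _ : Fin n => ℝ) (e i)).hasFDerivAt
  have hd : HasFDerivAt f (fderiv ℝ f (rl e y)) (rl e y) :=
    (h.differentiable one_ne_zero _).hasFDerivAt
  have e1 := (hd.comp y hl).fderiv
  unfold Pool.Agent.R972.OP.pd pd
  have e2 : fderiv ℝ (fun y => f (rl e y)) y = fderiv ℝ (f ∘ rl e) y := rfl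
  rw [e2, e1]
  rw [ContinuousLinearMap.comp_apply]
  congr 1
  funext i
  simp only [ContinuousLinearMap.coe_pi', ContinuousLinearMap.proj_apply, Pi.single_apply,
    EmbeddingLike.apply_eq_iff_eq]

end

theorem t_OPK : S_OPK := by
  intro ι _ _ R f hf
  have e : ι ≃ Fin (Fintype.card ι) := Fintype.equivFin ι
  have hfe : ContDiff ℝ 1 (fun y => f (rl e y)) := by
    apply hf.comp
    unfold rl
    fun_prop
  have h := poit (Cl R e) hfe
  rw [int_rl R e f, int_rl R e (fun x => f x ^ 2), vol_rl R e,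
    int_rl R e (fun x => ∑ a, pd f a x ^ 2)]
  have e2 : ∀ y : Fin (Fintype.card ι) → ℝ,
      ∑ a, Pool.Agent.R972.OP.pd (fun y => f (rl e y)) a y ^ 2 = ∑ a, pd f a (rl e y) ^ 2 := by
    intro y
    rw [← Equiv.sum_comp e]
    exact Finset.sum_congr rfl fun a _ => by rw [pd_rl e hf]
  simp only [e2] at h
  linarith [h]

end Pool.Agent.L0h78.GT
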